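import Pool.Agent.R370.HA.D

/-!
# The hyperbolic analytic subspace conjecture and linear relations between coordinates

Let `k` be the field of the algebraic numbers, `K` the field of complex numbers, and `T_oX` the tangent
space of the problem at the special point `o`. It is a direct sum of `n = dim X` lines, each rational
for both structures. Choose on each line a generator of the geometric structure. Then `T_oX` is `K^n`,
the geometric structure is `k^n`, and the arithmetic structure consists of the vectors `(w i / μ i)`
with `w i` in `k`, for certain nonzero complex numbers `μ i` (for the moduli space of abelian varieties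
they are the numbers `θ_j θ_j' / π`, `θ_j` the holomorphic periods of the CM abelian variety `[o]`).

The coordinates of a vector `z` for the arithmetic structure are the numbers `μ i * z i`. Let `z` be a
special point of `X`. In the Harish-Chandra realization `z` is a point of `k^n`: special
points are points over `k` of the compact dual, and the Harish-Chandra realization is given by the
exponential map of the unipotent group opposite to the stabilizer of `o`, which is an open
immersion over `k` into the compact dual.

Theorem. (0) For all `z` in `K^n`: Q1 is true for `z` (and all `V`) if and only if all linear
relations over `k` between the arithmetic coordinates `μ i * z i` of `z` are sums of relations in which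
the `μ i` are proportional (that is, with quotients in `k`).
(1) Let `z` be in `k^n`. Then Q1 is true for `z` (and all `V`) if and only if all linear
relations over `k` between the `μ i` with `z i ≠ 0` are sums of relations between proportional `μ i`
(that is, with quotients in `k`); in other words, if and only if those of these `μ i` which are
pairwise not proportional are linearly independent over `k`.
(2) So Q1 is true for all `z` in `k^n` if and only if this holds for all `μ i` together.
(3) It is satisfied if there are at most two classes of proportional `μ i` with `z i ≠ 0`, in
particular if `n ≤ 2`.
(4) If all `μ i` are proportional, then Q1 is true for all `z` and all `V`.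

So Q1 is equivalent to the following statement, in which no subspaces occur: if `[z]` is defined over
the algebraic numbers, then the linear relations over the algebraic numbers between the arithmetic
coordinates of `z` split according to the classes of proportional `μ i`. Moreover
Q1 is true for all special `z` (and all `V`) if `dim X ≤ 2`, or if the `μ i` are in at most two
classes. In general there are special `z` with all coordinates nonzero, because special points are
dense, and for each of them Q1 is equivalent to the statement that the linear relations over the
algebraic numbers between the `μ i` are generated by those with two terms. The problem file says that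
Q1 and Q2 imply this statement for the numbers `θ_j θ_j'`; by the theorem it implies, and is implied
by, Q1 for the special `z`.

The proof. If the relations split, let `V'` be the span of the vectors of the arithmetic structure which
are in `V` and supported in one class of proportional `μ i`. It is rational for both structures. A
linear form over `k` (for the arithmetic structure) which vanishes on `V` vanishes on `z`, which is a
linear relation between the `μ i * z i`, and so it vanishes on the parts of `z`. So these are in `V'`. For the converse let `V` be the smallest subspace which contains `z` and
is rational for the arithmetic structure, and let `V'` be rational for both structures and contain `z`.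
For all `k`-linear `φ, φ' : K → k` the points of `V'` over `k` are stable under multiplication of the
coordinates by the numbers `φ (μ i) * φ' (1 / μ i)`. These functions of `i` separate the classes of
proportional `μ i`, so `V'` contains the parts of `z`.
-/

namespace Pool.Agent.Results.MP_1e27bd_ag.LinearRelations

open Pool.Agent.R370.HA

/-- Q1 and linear relations between the arithmetic coordinates. -/
theorem result (k K : Type) [Field k] [Field K] [Algebra k K] (ι : Type) [Fintype ι]
    (μ : ι → K) (hμ : ∀ i, μ i ≠ 0) :
    (∀ z : ι → K, SubspaceProperty k μ z ↔ CoordinatesSplit k μ z) ∧
    (∀ w : ι → k, SubspaceProperty k μ (fun i => algebraMap k K (w i)) ↔ RelationsSplit k μ w) ∧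
    ((∀ w : ι → k, SubspaceProperty k μ (fun i => algebraMap k K (w i))) ↔
      RelationsSplit k μ (fun _ => 1)) ∧
    (∀ w : ι → k, (∃ i₁ i₂, ∀ j, w j ≠ 0 →
        Proportional k (μ i₁) (μ j) ∨ Proportional k (μ i₂) (μ j)) →
      SubspaceProperty k μ (fun i => algebraMap k K (w i))) ∧
    (Fintype.card ι ≤ 2 → ∀ w : ι → k, SubspaceProperty k μ (fun i => algebraMap k K (w i))) ∧
    ((∀ i j, Proportional k (μ i) (μ j)) → ∀ z : ι → K, SubspaceProperty k μ z) := by
  refine ⟨fun z => ⟨coordinates_of_property hμ, property_of_coordinates hμ⟩, ?_⟩
  have h1 : ∀ w : ι → k, SubspaceProperty k μ (fun i => algebraMap k K (w i)) ↔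
      RelationsSplit k μ w := fun w => ⟨split_of_property hμ, special_split hμ⟩
  have h2 : ∀ w : ι → k, (∃ i₁ i₂, ∀ j, w j ≠ 0 →
      Proportional k (μ i₁) (μ j) ∨ Proportional k (μ i₂) (μ j)) →
      SubspaceProperty k μ (fun i => algebraMap k K (w i)) := by
    rintro w ⟨i₁, i₂, h⟩
    exact special_split hμ (split_of_two hμ h)
  refine ⟨h1, ⟨fun h => (h1 _).1 (h _), fun h w => (h1 w).2 fun b _ hb i b' hb' =>
    h b (fun j hj => absurd hj one_ne_zero) hb i b' hb'⟩, h2, fun hn w => ?_,
    fun h z => one_class hμ h z⟩
  classical
  rcases isEmpty_or_nonempty ι with hι | ⟨⟨i₁⟩⟩
  · exact special_split hμ fun _ _ _ i => (IsEmpty.false i).elim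
  · by_cases h1 : ∃ i₂ : ι, i₂ ≠ i₁
    · obtain ⟨i₂, hi₂⟩ := h1
      refine h2 w ⟨i₁, i₂, fun j _ => ?_⟩
      have h3 : ({i₁, i₂} : Finset ι) = Finset.univ := by
        apply Finset.eq_univ_of_card
        rw [Finset.card_pair hi₂.symm]
        have h4 : ({i₁, i₂} : Finset ι).card ≤ Fintype.card ι := Finset.card_le_univ _
        rw [Finset.card_pair hi₂.symm] at h4
        omega
      have h4 : j ∈ ({i₁, i₂} : Finset ι) := h3 ▸ Finset.mem_univ j
      rcases Finset.mem_insert.1 h4 with rfl | h5
      · exact Or.inl (prop_refl _)
      · rw [Finset.mem_singleton] at h5
        subst h5
        exact Or.inr (prop_refl _)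
    · push Not at h1
      exact h2 w ⟨i₁, i₁, fun j _ => Or.inl (by rw [h1 j]; exact prop_refl _)⟩

end Pool.Agent.Results.MP_1e27bd_ag.LinearRelations
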